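import Pool.Agent.Helper57.TI.Recs
import Pool.Agent.Helper7.TB.Typ

/-!
MP_8ee768_co, project TH-Y': kernel checks of the pair link types (canonical frames), blocks 20 .. 39.
-/

set_option autoImplicit false
set_option maxRecDepth 100000

namespace Pool.Agent.Gen.TY.ISO.ISO_001

open Pool.Agent.Helper57.TY Pool.Agent.Helper57.TI
open Pool.Agent.Helper7.TB (typ)

theorem b20 : okB typ (recB 20) (64 * 20) = true := by decide +kernel

theorem b21 : okB typ (recB 21) (64 * 21) = true := by decide +kernel

theorem b22 : okB typ (recB 22) (64 * 22) = true := by decide +kernel

theorem b23 : okB typ (recB 23) (64 * 23) = true := by decide +kernel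

theorem b24 : okB typ (recB 24) (64 * 24) = true := by decide +kernel

theorem b25 : okB typ (recB 25) (64 * 25) = true := by decide +kernel

theorem b26 : okB typ (recB 26) (64 * 26) = true := by decide +kernel

theorem b27 : okB typ (recB 27) (64 * 27) = true := by decide +kernel

theorem b28 : okB typ (recB 28) (64 * 28) = true := by decide +kernel

theorem b29 : okB typ (recB 29) (64 * 29) = true := by decide +kernel

theorem b30 : okB typ (recB 30) (64 * 30) = true := by decide +kernel

theorem b31 : okB typ (recB 31) (64 * 31) = true := by decide +kernel

theorem b32 : okB typ (recB 32) (64 * 32) = true := by decide +kernel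

theorem b33 : okB typ (recB 33) (64 * 33) = true := by decide +kernel

theorem b34 : okB typ (recB 34) (64 * 34) = true := by decide +kernel

theorem b35 : okB typ (recB 35) (64 * 35) = true := by decide +kernel

theorem b36 : okB typ (recB 36) (64 * 36) = true := by decide +kernel

theorem b37 : okB typ (recB 37) (64 * 37) = true := by decide +kernel

theorem b38 : okB typ (recB 38) (64 * 38) = true := by decide +kernel

theorem b39 : okB typ (recB 39) (64 * 39) = true := by decide +kernel

theorem ok : ∀ k, 20 ≤ k → k < 40 → okB typ (recB k) (64 * k) = true := by
  intro k h1 h2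
  interval_cases k
  · exact b20
  · exact b21
  · exact b22
  · exact b23
  · exact b24
  · exact b25
  · exact b26
  · exact b27
  · exact b28
  · exact b29
  · exact b30
  · exact b31
  · exact b32
  · exact b33
  · exact b34
  · exact b35
  · exact b36
  · exact b37
  · exact b38
  · exact b39

end Pool.Agent.Gen.TY.ISO.ISO_001
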