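import Pool.Agent.Helper57.TI.Recs
import Pool.Agent.Helper7.TB.Typ

/-!
MP_8ee768_co, project TH-Y': kernel checks of the pair link types (canonical frames), blocks 40 .. 59.
-/

set_option autoImplicit false
set_option maxRecDepth 100000

namespace Pool.Agent.Gen.TY.ISO.ISO_002

open Pool.Agent.Helper57.TY Pool.Agent.Helper57.TI
open Pool.Agent.Helper7.TB (typ)

theorem b40 : okB typ (recB 40) (64 * 40) = true := by decide +kernel

theorem b41 : okB typ (recB 41) (64 * 41) = true := by decide +kernel

theorem b42 : okB typ (recB 42) (64 * 42) = true := by decide +kernel

theorem b43 : okB typ (recB 43) (64 * 43) = true := by decide +kernel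

theorem b44 : okB typ (recB 44) (64 * 44) = true := by decide +kernel

theorem b45 : okB typ (recB 45) (64 * 45) = true := by decide +kernel

theorem b46 : okB typ (recB 46) (64 * 46) = true := by decide +kernel

theorem b47 : okB typ (recB 47) (64 * 47) = true := by decide +kernel

theorem b48 : okB typ (recB 48) (64 * 48) = true := by decide +kernel

theorem b49 : okB typ (recB 49) (64 * 49) = true := by decide +kernel

theorem b50 : okB typ (recB 50) (64 * 50) = true := by decide +kernel

theorem b51 : okB typ (recB 51) (64 * 51) = true := by decide +kernel

theorem b52 : okB typ (recB 52) (64 * 52) = true := by decide +kernel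

theorem b53 : okB typ (recB 53) (64 * 53) = true := by decide +kernel

theorem b54 : okB typ (recB 54) (64 * 54) = true := by decide +kernel

theorem b55 : okB typ (recB 55) (64 * 55) = true := by decide +kernel

theorem b56 : okB typ (recB 56) (64 * 56) = true := by decide +kernel

theorem b57 : okB typ (recB 57) (64 * 57) = true := by decide +kernel

theorem b58 : okB typ (recB 58) (64 * 58) = true := by decide +kernel

theorem b59 : okB typ (recB 59) (64 * 59) = true := by decide +kernel

theorem ok : ∀ k, 40 ≤ k → k < 60 → okB typ (recB k) (64 * k) = true := by
  intro k h1 h2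
  interval_cases k
  · exact b40
  · exact b41
  · exact b42
  · exact b43
  · exact b44
  · exact b45
  · exact b46
  · exact b47
  · exact b48
  · exact b49
  · exact b50
  · exact b51
  · exact b52
  · exact b53
  · exact b54
  · exact b55
  · exact b56
  · exact b57
  · exact b58
  · exact b59

end Pool.Agent.Gen.TY.ISO.ISO_002
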