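import Pool.Agent.Helper57.TI.Recs
import Pool.Agent.Helper7.TB.Typ

/-!
MP_8ee768_co, project TH-Y': kernel checks of the pair link types (canonical frames), blocks 60 .. 79.
-/

set_option autoImplicit false
set_option maxRecDepth 100000

namespace Pool.Agent.Gen.TY.ISO.ISO_003

open Pool.Agent.Helper57.TY Pool.Agent.Helper57.TI
open Pool.Agent.Helper7.TB (typ)

theorem b60 : okB typ (recB 60) (64 * 60) = true := by decide +kernel

theorem b61 : okB typ (recB 61) (64 * 61) = true := by decide +kernel

theorem b62 : okB typ (recB 62) (64 * 62) = true := by decide +kernel

theorem b63 : okB typ (recB 63) (64 * 63) = true := by decide +kernel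

theorem b64 : okB typ (recB 64) (64 * 64) = true := by decide +kernel

theorem b65 : okB typ (recB 65) (64 * 65) = true := by decide +kernel

theorem b66 : okB typ (recB 66) (64 * 66) = true := by decide +kernel

theorem b67 : okB typ (recB 67) (64 * 67) = true := by decide +kernel

theorem b68 : okB typ (recB 68) (64 * 68) = true := by decide +kernel

theorem b69 : okB typ (recB 69) (64 * 69) = true := by decide +kernel

theorem b70 : okB typ (recB 70) (64 * 70) = true := by decide +kernel

theorem b71 : okB typ (recB 71) (64 * 71) = true := by decide +kernel

theorem b72 : okB typ (recB 72) (64 * 72) = true := by decide +kernel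

theorem b73 : okB typ (recB 73) (64 * 73) = true := by decide +kernel

theorem b74 : okB typ (recB 74) (64 * 74) = true := by decide +kernel

theorem b75 : okB typ (recB 75) (64 * 75) = true := by decide +kernel

theorem b76 : okB typ (recB 76) (64 * 76) = true := by decide +kernel

theorem b77 : okB typ (recB 77) (64 * 77) = true := by decide +kernel

theorem b78 : okB typ (recB 78) (64 * 78) = true := by decide +kernel

theorem b79 : okB typ (recB 79) (64 * 79) = true := by decide +kernel

theorem ok : ∀ k, 60 ≤ k → k < 80 → okB typ (recB k) (64 * k) = true := by
  intro k h1 h2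
  interval_cases k
  · exact b60
  · exact b61
  · exact b62
  · exact b63
  · exact b64
  · exact b65
  · exact b66
  · exact b67
  · exact b68
  · exact b69
  · exact b70
  · exact b71
  · exact b72
  · exact b73
  · exact b74
  · exact b75
  · exact b76
  · exact b77
  · exact b78
  · exact b79

end Pool.Agent.Gen.TY.ISO.ISO_003
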