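import Pool.Agent.Gen.TY.ISO.ISO_000
import Pool.Agent.Gen.TY.ISO.ISO_001
import Pool.Agent.Gen.TY.ISO.ISO_002
import Pool.Agent.Gen.TY.ISO.ISO_003
import Pool.Agent.Helper57.TI.Iso

/-!
MP_8ee768_co, project TH-Y': all kernel checks of the pair link types.
-/

set_option autoImplicit false

namespace Pool.Agent.Gen.TY.ISO

open Pool.Agent.Helper57.TY Pool.Agent.Helper57.TI

theorem isoH : IsoH := by
  intro k hk
  rcases Nat.lt_or_ge k 20 with h | h
  · exact ISO_000.ok k (Nat.zero_le _) h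
  rcases Nat.lt_or_ge k 40 with h' | h'
  · exact ISO_001.ok k h h'
  rcases Nat.lt_or_ge k 60 with h'' | h''
  · exact ISO_002.ok k h' h''
  exact ISO_003.ok k h'' hk

end Pool.Agent.Gen.TY.ISO
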