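import Pool.Agent.Helper57.TI.Recs
import Pool.Agent.Helper7.TB.Typ

/-!
MP_8ee768_co, project TH-Y': kernel checks of the pair link types (canonical frames), blocks 0 .. 19.
-/

set_option autoImplicit false
set_option maxRecDepth 100000

namespace Pool.Agent.Gen.TY.ISO.ISO_000

open Pool.Agent.Helper57.TY Pool.Agent.Helper57.TI
open Pool.Agent.Helper7.TB (typ)

theorem b0 : okB typ (recB 0) (64 * 0) = true := by decide +kernel

theorem b1 : okB typ (recB 1) (64 * 1) = true := by decide +kernel

theorem b2 : okB typ (recB 2) (64 * 2) = true := by decide +kernel

theorem b3 : okB typ (recB 3) (64 * 3) = true := by decide +kernel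

theorem b4 : okB typ (recB 4) (64 * 4) = true := by decide +kernel

theorem b5 : okB typ (recB 5) (64 * 5) = true := by decide +kernel

theorem b6 : okB typ (recB 6) (64 * 6) = true := by decide +kernel

theorem b7 : okB typ (recB 7) (64 * 7) = true := by decide +kernel

theorem b8 : okB typ (recB 8) (64 * 8) = true := by decide +kernel

theorem b9 : okB typ (recB 9) (64 * 9) = true := by decide +kernel

theorem b10 : okB typ (recB 10) (64 * 10) = true := by decide +kernel

theorem b11 : okB typ (recB 11) (64 * 11) = true := by decide +kernel

theorem b12 : okB typ (recB 12) (64 * 12) = true := by decide +kernel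

theorem b13 : okB typ (recB 13) (64 * 13) = true := by decide +kernel

theorem b14 : okB typ (recB 14) (64 * 14) = true := by decide +kernel

theorem b15 : okB typ (recB 15) (64 * 15) = true := by decide +kernel

theorem b16 : okB typ (recB 16) (64 * 16) = true := by decide +kernel

theorem b17 : okB typ (recB 17) (64 * 17) = true := by decide +kernel

theorem b18 : okB typ (recB 18) (64 * 18) = true := by decide +kernel

theorem b19 : okB typ (recB 19) (64 * 19) = true := by decide +kernel

theorem ok : ∀ k, 0 ≤ k → k < 20 → okB typ (recB k) (64 * k) = true := by
  intro k h1 h2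
  interval_cases k
  · exact b0
  · exact b1
  · exact b2
  · exact b3
  · exact b4
  · exact b5
  · exact b6
  · exact b7
  · exact b8
  · exact b9
  · exact b10
  · exact b11
  · exact b12
  · exact b13
  · exact b14
  · exact b15
  · exact b16
  · exact b17
  · exact b18
  · exact b19

end Pool.Agent.Gen.TY.ISO.ISO_000
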